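import Pool.Agent.U672.SF.Const

/-!
# The sign conjecture in positive characteristic for sums of constant forms

`k` is a perfect field of characteristic `p > 0`, `k₀` a finite subfield, and `D` the triangulated
category of geometric motives over `k` with rational coefficients, in the form of its standard properties
(`MotiveFacts`, `ConstantFacts`); `S` is the realization given by a Weil cohomology theory, for instance
rational crystalline cohomology. `CPlus S (D.M X)` is Grothendieck's sign conjecture `C⁺(X)` for the
smooth proper scheme `X`. By Katz and Messing the Künneth projectors are algebraic for the smooth proper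
schemes over `k₀`, hence also for their base changes to `k`.

**Theorem.** Let `N ≥ 1` be such that `C⁺` is true for the smooth proper schemes over `k` of dimension at
most `N`; this is known for `N = 2`. Then `C⁺(X)` is true for all smooth proper schemes `X` over `k`, of any
dimension, which can be obtained from the following schemes by cutting and pasting, products of affine
schemes and quotients by finite free coverings (`Built`):
* the schemes `∑ a_j f_j (x_j) = g (y)` where the `f_j` are quasi-homogeneous polynomials with coefficients in
  the *finite* field `k₀`, in separate variables and in any numbers of variables, the `a_j` are arbitrary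
  elements of `k`, and `g` is a function on an affine scheme of dimension at most `N`, or a function such
  that `g = 0` and the coverings `v ^ m = g` are already in the class; for instance all
  hypersurfaces `a_0 f_0 (x_0) + … + a_n f_n (x_n) = 0`, singular or not; some of the `f_j` may also be
  quasi-homogeneous polynomials over `k` in at most `N + 1` variables or trilinear forms over `k` with a
  small block;
* the closed subschemes of affine spaces defined by a system of excess at most `N + 1` and polynomials with any
  numbers of terms whose exponents are independent modulo those of the system;
* all schemes of dimension at most `N`, all schemes of finite type defined over `k₀` (singular, not proper),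
  and all smooth proper schemes for which `C⁺` is true.
The same holds for the algebraicity of all Künneth projectors.
-/

set_option autoImplicit false

open CategoryTheory MonoidalCategory AlgebraicGeometry Pool.Agent.TH137.DG Pool.Agent.Y116.UV
  Pool.Agent.Z125.UN Pool.Agent.U672.SF

namespace Pool.Agent.Results.MP_fd35e1_ag.ConstantForms

universe v u w

/-- **Theorem.** (1) Suppose that the sign conjecture is true for the smooth proper schemes of dimension
at most `N` (this is known for `N = 2`) and for those defined over `k₀` (this is known for finite `k₀`).
Then it is true for all smooth proper schemes which are built from sums of forms over `k₀` with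
coefficients in `k`, systems of excess at most `N + 1`, schemes of dimension at most `N`, schemes over
`k₀` and smooth proper schemes for which it is true. (2) The same for the algebraicity of all Künneth
projectors. (3) In both cases the motive of `X` is a direct factor of a sum of Tate twists of products of
motives of the given smooth proper schemes. -/
theorem result {k₀ k : Type} [Field k₀] [Finite k₀] [Field k] [Algebra k₀ k] {C : Type u}
    [Category.{v} C] [MonoidalCategory C] [SymmetricCategory C] [Preadditive C] [Linear ℚ C]
    [Limits.HasZeroObject C] [HasShift C ℤ] [∀ n : ℤ, (shiftFunctor C n).Additive]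
    [Pretriangulated C] {D : Motives k C} (hD : MotiveFacts D) (hc : ConstantFacts k₀ D)
    {F : Type} [Field F] [CharZero F] (S : Realization.{v, u, w} D F) (N : ℕ) (hN : 1 ≤ N) :
    ((∀ X, SmoothProper X → topologicalKrullDim X.left ≤ N → CPlus S (D.M X)) →
      (∀ X, SmoothProper X → Constant k₀ X → CPlus S (D.M X)) →
      ∀ X, SmoothProper X → Built k₀ N (fun Y => SmoothProper Y ∧ CPlus S (D.M Y)) X →
        CPlus S (D.M X) ∧ Pure D (fun Y => SmoothProper Y ∧ CPlus S (D.M Y)) (D.M X)) ∧
    ((∀ X, SmoothProper X → topologicalKrullDim X.left ≤ N → AllProjectors S (D.M X)) →
      (∀ X, SmoothProper X → Constant k₀ X → AllProjectors S (D.M X)) →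
      ∀ X, SmoothProper X → Built k₀ N (fun Y => SmoothProper Y ∧ AllProjectors S (D.M Y)) X →
        AllProjectors S (D.M X) ∧
          Pure D (fun Y => SmoothProper Y ∧ AllProjectors S (D.M Y)) (D.M X)) := by
  refine ⟨fun h h0 X hp hX => ?_, fun h h0 X hp hX => ?_⟩
  · have h1 := built_pure hD hc hN (fun X hX => hX.1) (fun X h1 h2 => ⟨h1, h X h1 h2⟩)
      (fun X h1 h2 => ⟨h1, h0 X h1 h2⟩) X hX hp
    exact ⟨pure_cplus hD (fun X hX => hX.2) h1, h1⟩
  · have h1 := built_pure hD hc hN (fun X hX => hX.1) (fun X h1 h2 => ⟨h1, h X h1 h2⟩)
      (fun X h1 h2 => ⟨h1, h0 X h1 h2⟩) X hX hp
    exact ⟨pure_all hD (fun X hX => hX.2) h1, h1⟩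

end Pool.Agent.Results.MP_fd35e1_ag.ConstantForms
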