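import Pool.Agent.N536.SG.Fin

/-!
# The sign conjecture from one half of the degrees of the powers

Let `W` be a Weil cohomology theory with coefficient field `K` (crystalline cohomology over a perfect
field, say), on a class of smooth proper varieties closed under products, and `X` a variety of
dimension `d` such that for all `s ≤ d` there are cycles of codimension `s` and `d - s` with non-zero
intersection number (for instance powers of an ample divisor). `C⁺(X)` is the sign conjecture: the
projector onto the even cohomology is the class of a cycle with rational coefficients.

For a variety `Y` and a set `D` of degrees we say that parity is separated in `D` (`ParityOn`) if for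
all classes `y` of even degree in `D` and `y'` of odd degree in `D` there is a combination `φ`, with
coefficients in `K`, of algebraic correspondences of degree zero, which may depend on `y` and `y'`,
with `φ(y) = y` and `φ(y') = 0`. It is sufficient that one combination of correspondences (an
endomorphism, or its powers) has no common eigenvalue on the even and on the odd cohomology in the
degrees of `D`.

**Theorem.**
1. Suppose that `C⁺(X)` is false. There is an odd number `p < 2 d` such that for all `n ≥ 1` and all
   sets `D` of degrees in which parity is separated on `X^n`: no two numbers `m`, `m + p` between `2 d`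
   and `2 (n - 1) d` belong to `D`, and the degrees in `D` contain at most the share
   `1 / 2 + (4 d + 1) √(b(X) / (2 (n + 1)))` of the cohomology of `X^n`, `b(X)` the sum of the Betti
   numbers. (The share `1 / 2` is trivial: take all even degrees, or all odd degrees.)
2. So `C⁺(X)` is equivalent to the separation of parity, for infinitely many `n`, in `r(n d) + 1`
   successive degrees of `X^n`, of distance at least `r(n d)` from `0` and `2 n d`, where `r` is any
   function which tends to infinity, however slowly.
3. If all varieties of the class have dual cycles as above, then `C⁺` for all varieties is equivalent to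
   51 percent of it for each variety: to the separation of parity in some degrees which contain 51
   percent of the cohomology. Even the share `1 / 2 + f(b(Y))` suffices if `f(y) √(log y)` tends to
   infinity. And it is sufficient to separate parity in `r(dim Y) + 1` successive degrees as above for
   all `Y` of large dimension.

No conjecture is assumed. Proof: if parity is not separated in the degrees `i`, `j` on `X`, then it is
not separated in the degrees `i + 2 s` and `j + 2 s` on `X^n`, for all `s ≤ (n - 1) d`: partial trace of
the correspondence on `X × Z` against `b × a`, where `a`, `b` are dual cycles on `Z`; this gives `p`,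
with duality for the other parity. The sets of degrees without a pair `m`, `m + p` contain about one
half of the cohomology at most, by an injection for words (Sperner's theorem).

The theorem is assembled from the files `N536/SG` of the starting library, whose theorems had not been
handed in.
-/

set_option autoImplicit false

open CategoryTheory AlgebraicGeometry Filter

universe u v

namespace Pool.Agent.Results.MP_fd35e1_ag.FiftyPercentOfDegrees

open Pool.Agent.H914 VarClass Obj WeilCohomology Pool.Agent.N103.OC Pool.Agent.TH133.PW
  Pool.Agent.H447 Pool.Agent.N536.SG

/-- **Fifty percent of the degrees.** -/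
theorem result {k : Type u} [Field k] {𝒱 : VarClass k} {ops : CycleOps 𝒱}
    (W : WeilCohomology.{u, v} ops) :
    (∀ X : 𝒱.Obj, DualCycles ops X → ¬ SignStd W X → HalfBound W X) ∧
    (∀ X : 𝒱.Obj, DualCycles ops X → ∀ r : ℕ → ℕ, Tendsto r atTop atTop →
      (∃ᶠ n in atTop, HasWindow W (pw X n) (r (pw X n).dim)) → SignStd W X) ∧
    (∀ (Y : 𝒱.Obj) (D : Set ℕ), (SignStd W Y → ParityOn W Y D) ∧
      (OneOperator W Y D → ParityOn W Y D)) ∧
    ((∀ X : 𝒱.Obj, DualCycles ops X) → SignFromShares W ∧ SignIffShare W ∧ SignFromWindows W) := by
  refine ⟨fun X hX hC => ?_, fun X hX r hr h => ?_, fun Y D => ⟨fun h => parityOn_of_sign h D, ?_⟩,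
    fun hd => ⟨fun f hf h => law_all W f hf hd h, fun ε h0 h1 => law_const W ε h0 h1 hd,
      fun r hr n₀ h => window_all W hr n₀ hd h⟩⟩
  · obtain ⟨a, p, hp, hpd, -, -, hno⟩ := no_pair (pairs_of_dual hX) hC
    refine ⟨p, hp, ?_, fun n hn D hD => ⟨?_, ?_⟩⟩
    · rcases hp with ⟨t, ht⟩
      omega
    · obtain ⟨n, rfl⟩ := Nat.exists_eq_add_of_le' hn
      intro m h1 h2 h3
      refine hno n D hD m h1 ?_ h3
      rw [pw_dim] at h2
      have h4 : n * (2 * X.dim) = 2 * (n * X.dim) := by ring
      have h5 : (n + 1) * X.dim = n * X.dim + X.dim := by ring
      omega
    · obtain ⟨n, rfl⟩ := Nat.exists_eq_add_of_le' hn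
      have h := share_le (pairs_of_dual hX) hC n D hD
      have e : (2 : ℝ) * (((n + 1 : ℕ) : ℝ) + 1) = 2 * (n + 2) := by
        push_cast
        ring
      rw [e]
      exact h
  · exact window hr (pairs_of_dual hX) h
  · rintro ⟨P, hP, h⟩
    exact parityOn_of_one hP h

end Pool.Agent.Results.MP_fd35e1_ag.FiftyPercentOfDegrees
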