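import Pool.Agent.TH133.PW.Ev

/-!
# The sign conjecture, one even and one odd class at a time

Let `W` be a Weil cohomology theory with coefficient field `K`, of characteristic zero (crystalline
cohomology over a perfect field, say), on a class of smooth proper varieties closed under products,
and `X` a variety of dimension `n`. We prove that the following are equivalent.

1. The sign conjecture `C⁺(X)`: the projector onto the even cohomology is induced by a cycle with
   rational coefficients on `X × X`.
2. This projector is a combination of operators induced by cycles, with coefficients in `K`.
3. For all SINGLE classes `y` of an even degree and `y'` of an odd degree some combination `φ` of
   algebraic correspondences of degree zero, with coefficients in `K`, which may depend on `y` and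
   `y'`, satisfies `φ(y) = y` and `φ(y') = 0`.
4. The algebraic cycles on `X × X` detect the sums of TWO products of homogeneous classes of
   different parity: if `y × w + y' × w'`, with `y`, `w` of even degrees with sum `2n` and `y'`, `w'`
   of odd degrees with sum `2n`, is orthogonal to all algebraic cycles of codimension `n` on `X × X`,
   then `∫ y w = 0`.
5. Each subspace of `H(X)` which is stable under the algebraic correspondences of degree zero is
   stable under the projector onto the even cohomology.

No conjecture is assumed, in particular not that numerical and homological equivalence agree or that
the algebra of correspondences is semisimple. So the conjecture is reduced to classes of tensor rank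
two, and the sign conjecture with coefficients in `K` for single pairs of classes implies it with
rational coefficients.

Proof. 3 ⇒ 2: the method of Tominaga: correspondences which separate single pairs can be combined to
correspondences which separate finitely many pairs. 2 ⇒ 1: the traces of the correspondences against
the projector are integers (the intersection numbers with the diagonal are the differences of the
traces on the even and the odd cohomology); a rational combination of the same cycles with the same
traces and a polynomial of it give the projector. 3 ⇔ 4 is duality, 1 ⇒ 5 ⇒ 3 is easy.

The theorem is assembled from the file `TH133/PW/Ev` of the starting library, whose theorem had not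
been handed in.
-/

set_option autoImplicit false

universe u v

namespace Pool.Agent.Results.MP_fd35e1_ag.PointwiseParity

open Pool.Agent.H914 Pool.Agent.H914.VarClass Pool.Agent.H914.VarClass.Obj
  Pool.Agent.H914.WeilCohomology Pool.Agent.TH133.PW Pool.Agent.H447

/-- **The sign conjecture, from the separation of one even and one odd class.** -/
theorem result {k : Type u} [Field k] {𝒱 : VarClass k} {ops : CycleOps 𝒱}
    (W : WeilCohomology.{u, v} ops) (X : 𝒱.Obj) :
    List.TFAE [
      SignStd W X,
      EvenProjInSpan (W.gr X) (cycleOperators W X X.dim),
      SeparatesParity (W.gr X) (cycleOperators W X X.dim),
      DetectsParity W X,
      StableParity (W.gr X) (cycleOperators W X X.dim)] :=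
  sign_tfae W X

end Pool.Agent.Results.MP_fd35e1_ag.PointwiseParity
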