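import Pool.Agent.H447R3.KuB
import Pool.Agent.X310.Cen

/-!
# The sign conjecture and intersection numbers on `X × X`

Let `W` be a Weil cohomology theory with coefficients in a field of characteristic zero (for instance
crystalline cohomology), `X` a smooth proper variety of dimension `n`. All cycles have rational
coefficients and codimension `n` on `X × X`, and `z · ᵗb` is the intersection number of `z` with the
transpose of `b`. The sign conjecture `C⁺` says that the projector `π⁺` to the even cohomology is
algebraic.

**Theorem 1 (`C⁺` may be checked modulo numerical equivalence).** The conjecture `C⁺` is true for `X` if
and only if there is a cycle `z` on `X × X` which has the same intersection numbers with all cycles as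
the class `π⁺`, and such that `z ∘ z` is numerically equivalent to `z`.

**Theorem 2 (one equality of numbers).** The conjecture `C⁺` is true for `X` if and only if there is a
cycle `w` with `w · ᵗb = ∑_j Tr(b | H^j(X))` for all cycles `b` (the trace on the total cohomology, without
signs) such that `w · ᵗ(w ∘ w)` is the sum of the Betti numbers of `X`. Moreover for EVERY cycle `w`
which represents the total trace `w · ᵗ(w ∘ w) ≥ ∑_j b_j(X)`, with equality if and only if `C⁺` is
true.

So `C⁺` for `X` consists of two statements on numbers: the function `b ↦ ∑_j Tr(b | H^j(X))`, which is
rational valued on algebraic correspondences in the cases where this is known, is given by a cycle;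
and one intersection number is as small as possible. No conjecture is assumed. Nothing is known here
on the ideal of the correspondences which are numerically equivalent to zero.

Proof of Theorem 2. The linear form represented by `w` determines the traces of all powers of `w` on
`H(X)`. By Newton's identities each eigenvalue `λ` of `w` is not zero and is equal to
`(a + b) / (a - b)`, where `a` and `b` are its multiplicities on the even and on the odd cohomology. So
`|λ| ≥ 1`, and the trace of `w ∘ w` on `H(X)`, which is `w · ᵗ(w ∘ w)`, is at least `dim H(X)`, with equality
if and only if `w` is `1` on the even and `-1` on the odd cohomology, up to nilpotent operators. In this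
case `π⁺` is a polynomial in `w` with rational coefficients.

The theorem is assembled from the files `H447R3/KuB` (Theorem 1) and `X310/Cen` (Theorem 2) of the
starting library, whose theorems had not been handed in.
-/

set_option autoImplicit false

universe u v

namespace Pool.Agent.Results.MP_fd35e1_ag.SignNumerical

open Pool.Agent.H914 Pool.Agent.H914.VarClass Pool.Agent.H914.VarClass.Obj
  Pool.Agent.H914.WeilCohomology Pool.Agent.H447 Pool.Agent.X310

/-- **The sign conjecture and intersection numbers.** -/
theorem result {k : Type u} [Field k] {𝒱 : VarClass k} {ops : CycleOps 𝒱}
    (W : WeilCohomology.{u, v} ops) (X : 𝒱.Obj) :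
    (SignStd W X ↔ SignNum W X) ∧
    (SignStd W X ↔ ∃ w, RepresentsTrace W X w ∧
      interT ops X w (compCyc ops w w) = totalBetti W X) ∧
    ∀ w, RepresentsTrace W X w → totalBetti W X ≤ interT ops X w (compCyc ops w w) ∧
      (interT ops X w (compCyc ops w w) = totalBetti W X ↔ SignStd W X) :=
  ⟨sign_iff_num, sign_main⟩

end Pool.Agent.Results.MP_fd35e1_ag.SignNumerical
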